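import Mathlib

set_option autoImplicit false

open Set Cardinal

namespace Pool.Agent.Results.MP_ebc4cb_lc.Nonempty

/-- `κ ∈ ℙ`: for every colouring of the pairs of a set of size `κ` with countably many colours
there are a colour `i` and `κ` distinct vertices, well-ordered, such that the `i`-neighbours of
each vertex are cofinal among its predecessors (a monochromatic transfinite path of size `κ`). -/
def InP (κ : Cardinal.{0}) : Prop :=
  ∀ (V : Type), #V = κ → ∀ c : Sym2 V → ℕ,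
    ∃ (i : ℕ) (O : Type) (_ : LinearOrder O) (_ : WellFoundedLT O) (p : O → V),
      Function.Injective p ∧ #O = κ ∧
        ∀ a b : O, b < a → ∃ w, b ≤ w ∧ w < a ∧ c s(p w, p a) = i

theorem un_le {X I : Type} {μ : Cardinal.{0}} (hμ : ℵ₀ ≤ μ) (hI : #I ≤ μ) {C : I → Set X}
    (h : ∀ i, #(C i) ≤ μ) : #(⋃ i, C i : Set X) ≤ μ :=
  (mk_iUnion_le _).trans ((mul_le_mul' hI (ciSup_le' h)).trans (mul_eq_self hμ).le)

theorem bdd {X : Type} [LinearOrder X] {κ : Cardinal.{0}} (hκ : ℵ₀ ≤ κ) (hX : κ < #X)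
    (hI : ∀ a : X, #(Iio a) ≤ κ) {s : Set X} (hs : #s ≤ κ) : ∃ a, ∀ b ∈ s, b < a := by
  have h1 : #(⋃ b : s, Iic b.1 : Set X) ≤ κ := un_le hκ hs fun b => by
    rw [← Iio_insert]
    exact mk_insert_le.trans (add_le_of_le hκ (hI _) (one_le_aleph0.trans hκ))
  by_contra h
  push Not at h
  have : (⋃ b : s, Iic b.1 : Set X) = Set.univ := eq_univ_of_forall fun a => by
    obtain ⟨b, hb, hab⟩ := h a
    exact mem_iUnion.2 ⟨⟨b, hb⟩, hab⟩
  rw [this, mk_univ] at h1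
  exact absurd hX (not_lt.2 h1)

theorem hub {J : Type} [LinearOrder J] (hb : ∀ s : Set J, #s ≤ ℵ₁ → ∃ a, ∀ b ∈ s, b < a)
    (d : J → J → ℕ) : ∃ (j : ℕ) (h : J), ∀ s, ∃ α δ, s < α ∧ α < δ ∧ h < δ ∧
      d h δ = j ∧ d α δ = j := by
  by_contra hh
  push Not at hh
  choose g hg using hh
  let W := (ℵ₁ : Cardinal.{0}).ord.ToType
  have hW : #W = ℵ₁ := by simp [W]
  have step : ∀ (w : W) (f : Iio w → J), ∃ y, ∀ z j, g j (f z) < y := by
    intro w f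
    obtain ⟨y, hy⟩ := hb (range fun q : Iio w × ℕ => g q.2 (f q.1)) (mk_range_le.trans (by
      rw [mk_prod, Cardinal.lift_id, Cardinal.lift_id, mk_nat]
      exact (mul_le_mul' ((mk_set_le _).trans hW.le) aleph0_lt_aleph_one.le).trans
        (mul_eq_self aleph0_lt_aleph_one.le).le))
    exact ⟨y, fun z j => hy _ ⟨(z, j), rfl⟩⟩
  choose st hst using step
  let x : W → J := WellFounded.fix (wellFounded_lt (α := W))
    (fun w ih => st w (fun z => ih z.1 z.2))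
  have hx : ∀ w, x w = st w (fun z => x z.1) := fun w => WellFounded.fix_eq _ _ _
  have key : ∀ v w, v < w → ∀ j, g j (x v) < x w := fun v w h j => by
    rw [hx w]; exact hst w (fun z => x z.1) ⟨v, h⟩ j
  obtain ⟨δ, hδ⟩ := hb (range x) (mk_range_le.trans hW.le)
  have : ¬ Function.Injective fun w => d (x w) δ := fun h =>
    absurd (mk_le_of_injective h) (by rw [hW, mk_nat]; exact aleph0_lt_aleph_one.not_ge)
  rw [Function.not_injective_iff] at this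
  obtain ⟨v, w, h1, h2⟩ := this
  rcases lt_or_gt_of_ne h2 with h | h
  · exact hg _ (x v) (x w) δ (key v w h _) (hδ _ ⟨w, rfl⟩) (hδ _ ⟨v, rfl⟩) rfl h1.symm
  · exact hg _ (x w) (x v) δ (key w v h _) (hδ _ ⟨v, rfl⟩) (hδ _ ⟨w, rfl⟩) rfl h1

theorem main {J : Type} [LinearOrder J] [WellFoundedLT J]
    (hb : ∀ s : Set J, #s ≤ ℵ₁ → ∃ a, ∀ b ∈ s, b < a) (l : J → Cardinal.{0})
    (hl : ∀ ξ, l ξ = Order.succ (2 ^ (ℵ₀ + #J + sum fun η : Iio ξ => l η))) :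
    InP (sum l) := by
  classical
  intro V hV c0
  let B : J → Type := fun ξ => (l ξ).out
  have hB : ∀ ξ, #(B ξ) = l ξ := fun ξ => mk_out _
  have hV0 : #(Σ ξ, B ξ) = sum l := by simp [B]
  obtain ⟨e⟩ := Cardinal.eq.1 (hV0.trans hV.symm)
  let c : (Σ ξ, B ξ) → (Σ ξ, B ξ) → ℕ := fun u v => c0 s(e u, e v)
  have big : ∀ ξ, (ℵ₀ + #J + sum fun η : Iio ξ => l η) < l ξ := fun ξ =>
    ((cantor _).trans (Order.lt_succ _)).trans_eq (hl ξ).symm
  have l0 : ∀ ξ, ℵ₀ ≤ l ξ := fun ξ => (le_self_add.trans le_self_add).trans (big ξ).le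
  have lJ : ∀ ξ, #J ≤ l ξ := fun ξ => (le_add_self.trans le_self_add).trans (big ξ).le
  have lm : ∀ η ξ, η < ξ → l η ≤ l ξ := fun η ξ h =>
    ((le_sum (fun η : Iio ξ => l η) ⟨η, h⟩).trans le_add_self).trans (big ξ).le
  have pw : ∀ ξ (X : Type), #X ≤ (ℵ₀ + #J + sum fun η : Iio ξ => l η) →
      #(X → ℕ) < (l ξ).ord.cof := by
    intro ξ X hX
    have h0 : ℵ₀ ≤ (ℵ₀ + #J + sum fun η : Iio ξ => l η) := le_self_add.trans le_self_add
    rw [hl ξ, (isRegular_succ (h0.trans (cantor _).le)).cof_ord, Order.lt_succ_iff, ← power_def,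
      mk_nat]
    calc ℵ₀ ^ #X ≤ (2 ^ ℵ₀) ^ #X := power_le_power_right (cantor _).le
      _ = 2 ^ (ℵ₀ * #X) := by rw [← power_mul]
      _ ≤ _ := power_le_power_left two_ne_zero ((mul_le_mul' h0 hX).trans (mul_eq_self h0).le)
  choose t1 ht1 using fun η => infinite_pigeonhole_card
    (fun (b : B η) (a : Σ ξ : Iio η, B ξ.1) => c ⟨a.1.1, a.2⟩ ⟨η, b⟩) (l η) (hB η).ge (l0 η)
    (pw η _ (by simp [B]))
  choose d ht2 using fun ξ => infinite_pigeonhole_card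
    (fun (a : (fun (b : B ξ) (a : Σ ζ : Iio ξ, B ζ.1) => c ⟨a.1.1, a.2⟩ ⟨ξ, b⟩) ⁻¹' {t1 ξ})
      (η : J) => if h : ξ < η then t1 η ⟨⟨ξ, h⟩, a.1⟩ else 0) (l ξ) (ht1 ξ) (l0 ξ)
    (pw ξ _ (le_add_self.trans le_self_add))
  have g0 := fun ξ => (Cardinal.le_def _ _).1 ((hB ξ).le.trans (ht2 ξ))
  let g : ∀ ξ, B ξ → B ξ := fun ξ b => ((g0 ξ).some b).1.1
  have ginj : ∀ ξ, Function.Injective (g ξ) := fun ξ a b h =>
    (g0 ξ).some.injective (Subtype.ext (Subtype.ext h))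
  have hc : ∀ ξ η, ξ < η → ∀ a b, c ⟨ξ, g ξ a⟩ ⟨η, g η b⟩ = d ξ η := by
    intro ξ η h a b
    have h1 := congrFun ((g0 η).some b).1.2 ⟨⟨ξ, h⟩, g ξ a⟩
    have h2 := congrFun ((g0 ξ).some a).2 η
    simp only [dif_pos h] at h2
    exact h1.trans h2
  obtain ⟨j, h, hh⟩ := hub hb d
  choose α δ h1 h2 h3 h4 h5 using hh
  obtain ⟨_, _⟩ := exists_wellFoundedLT (Σ ξ, B ξ)
  have ne : ∀ ξ, Nonempty (B ξ) := fun ξ =>
    mk_ne_zero_iff.1 (by rw [hB]; exact (aleph0_pos.trans_le (l0 ξ)).ne')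
  let v0 : Σ ξ, B ξ := ⟨h, (ne h).some⟩
  let mk : J → Bool → (Σ ξ, B ξ) → ℕ → J ×ₗ Bool ×ₗ (Σ ξ, B ξ) ×ₗ ℕ := fun s b v n =>
    toLex (s, toLex (b, toLex (v, n)))
  have mlt : ∀ s b v n s' b' v' n', mk s b v n < mk s' b' v' n' ↔
      s < s' ∨ s = s' ∧ (b < b' ∨ b = b' ∧ (v < v' ∨ v = v' ∧ n < n')) := by
    intro s b v n s' b' v' n'
    simp only [mk, Prod.Lex.toLex_lt_toLex]
  let O := {q : J ×ₗ Bool ×ₗ (Σ ξ, B ξ) ×ₗ ℕ //
    (∃ s v n, v.1 = s ∧ q = mk s false v n) ∨ ∃ s, q = mk s true v0 0}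
  let φ : J ×ₗ Bool ×ₗ (Σ ξ, B ξ) ×ₗ ℕ → J := fun q =>
    if (ofLex (ofLex q).2).1 = true then h
    else if (ofLex (ofLex (ofLex q).2).2).2 % 2 = 0 then δ (ofLex q).1 else α (ofLex q).1
  have φ1 : ∀ s v n, φ (mk s true v n) = h := fun s v n => by simp [φ, mk]
  have φ2 : ∀ s v n, n % 2 = 0 → φ (mk s false v n) = δ s := fun s v n hn => by simp [φ, mk, hn]
  have φ3 : ∀ s v n, n % 2 = 1 → φ (mk s false v n) = α s := fun s v n hn => by simp [φ, mk, hn]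
  have fib : ∀ ξ, Nonempty ({q : O | φ q.1 = ξ} ↪ B ξ) := by
    intro ξ
    rw [← Cardinal.le_def, hB, ← mk_image_eq Subtype.val_injective]
    have : Subtype.val '' {q : O | φ q.1 = ξ} ⊆ (range fun s => mk s true v0 0) ∪
        ⋃ s : Iio ξ, range fun q : B s.1 × ℕ => mk s.1 false ⟨s.1, q.1⟩ q.2 := by
      rintro _ ⟨⟨q, ⟨s, ⟨s', v⟩, n, rfl, rfl⟩ | ⟨s, rfl⟩⟩, hq, rfl⟩
      · refine Or.inr (mem_iUnion.2 ⟨⟨s', ?_⟩, (v, n), rfl⟩)
        have hq : φ (mk s' false ⟨s', v⟩ n) = ξ := hq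
        rcases Nat.mod_two_eq_zero_or_one n with k | k
        · rw [φ2 _ _ _ k] at hq
          exact hq ▸ (h1 s').trans (h2 s')
        · rw [φ3 _ _ _ k] at hq
          exact hq ▸ h1 s'
      · exact Or.inl ⟨s, rfl⟩
    refine (mk_le_mk_of_subset this).trans ((mk_union_le _ _).trans (add_le_of_le (l0 ξ)
      (mk_range_le.trans (lJ ξ)) (un_le (l0 ξ) ((mk_set_le _).trans (lJ ξ)) fun s =>
        mk_range_le.trans ?_)))
    rw [mk_prod, Cardinal.lift_id, Cardinal.lift_id, mk_nat, hB]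
    exact (mul_le_mul' (lm _ _ s.2) (l0 ξ)).trans (mul_eq_self (l0 ξ)).le
  let p0 : O → Σ ξ, B ξ := fun q => ⟨φ q.1, g _ ((fib (φ q.1)).some ⟨q, rfl⟩)⟩
  have hp : ∀ (q : O) ξ (k : φ q.1 = ξ), p0 q = ⟨ξ, g ξ ((fib ξ).some ⟨q, k⟩)⟩ := by
    rintro q ξ rfl
    rfl
  have pinj : Function.Injective p0 := by
    intro a b hab
    have k : φ b.1 = φ a.1 := (congrArg Sigma.fst hab).symm
    rw [hp a _ rfl, hp b _ k] at hab
    exact Subtype.mk.inj ((fib _).some.injective (ginj _ (sigma_mk_injective hab)))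
  have col : ∀ (a b : O) ξ η, φ a.1 = ξ → φ b.1 = η → ξ < η → d ξ η = j →
      c0 s(e (p0 a), e (p0 b)) = j ∧ c0 s(e (p0 b), e (p0 a)) = j := by
    intro a b ξ η k1 k2 k3 k4
    have : c0 s(e (p0 a), e (p0 b)) = j := by
      rw [hp a ξ k1, hp b η k2, ← k4]
      exact hc ξ η k3 _ _
    exact ⟨this, by rw [Sym2.eq_swap]; exact this⟩
  refine ⟨j, O, inferInstance, inferInstance, fun q => e (p0 q), e.injective.comp pinj,
    le_antisymm ((mk_le_of_injective pinj).trans hV0.le) (hV0.ge.trans ?_), ?_⟩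
  · refine mk_le_of_injective (f := fun v => (⟨mk v.1 false v 0, Or.inl ⟨_, v, 0, rfl, rfl⟩⟩ : O))
      fun u v huv => ?_
    exact congrArg (fun q : O => (ofLex (ofLex (ofLex q.1).2).2).1) huv
  · have dec : ∀ b : O, ∃ s x v n, b.1 = mk s x v n ∧ (x = false → v.1 = s) ∧
        (x = true → v = v0 ∧ n = 0) := by
      rintro ⟨_, ⟨s, v, n, k, rfl⟩ | ⟨s, rfl⟩⟩
      · exact ⟨s, false, v, n, rfl, fun _ => k, by simp⟩
      · exact ⟨s, true, v0, 0, rfl, by simp, fun _ => ⟨rfl, rfl⟩⟩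
    rintro ⟨a, ha⟩ b hba0
    obtain ⟨t, x, u, m, e1, e2, e3⟩ := dec b
    have hba : b.1 < a := hba0
    clear hba0
    rw [e1] at hba
    have le' : ∀ w : O, ¬ w.1 < mk t x u m → b ≤ w := fun w hw =>
      not_lt.1 fun k => hw (e1 ▸ k)
    rcases ha with ⟨s, v, n, k, rfl⟩ | ⟨s, rfl⟩
    · rw [mlt] at hba
      rcases n with _ | n
      · rcases hba with l | ⟨rfl, l | ⟨rfl, l | ⟨-, l⟩⟩⟩
        · refine ⟨⟨mk t true v0 0, Or.inr ⟨t, rfl⟩⟩, le' _ ?_, (mlt _ _ _ _ _ _ _ _).2 (Or.inl l),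
            (col _ _ _ _ (φ1 _ _ _) (φ2 _ _ _ rfl) (h3 s) (h4 s)).1⟩
          rw [mlt]
          cases x
          · simp
          · obtain ⟨rfl, rfl⟩ := e3 rfl
            simp
        · exact absurd l (by cases x <;> decide)
        · refine ⟨⟨mk t false u (2 * m + 1), Or.inl ⟨t, u, _, e2 rfl, rfl⟩⟩, le' _ ?_,
            (mlt _ _ _ _ _ _ _ _).2 (Or.inr ⟨rfl, Or.inr ⟨rfl, Or.inl l⟩⟩),
            (col _ _ _ _ (φ3 _ _ _ (by omega)) (φ2 _ _ _ rfl) (h2 t) (h5 t)).1⟩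
          rw [mlt]
          simp
          omega
        · omega
      · refine ⟨⟨mk s false v n, Or.inl ⟨s, v, n, k, rfl⟩⟩, le' _ ?_,
          (mlt _ _ _ _ _ _ _ _).2 (Or.inr ⟨rfl, Or.inr ⟨rfl, Or.inr ⟨rfl, by omega⟩⟩⟩), ?_⟩
        · rw [mlt]
          rcases hba with l | ⟨rfl, l | ⟨rfl, l | ⟨rfl, l⟩⟩⟩
          · simp [l.not_gt, l.ne']
          · exact absurd l (by cases x <;> decide)
          · simp [l.not_gt, l.ne']
          · simp; omega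
        · rcases Nat.mod_two_eq_zero_or_one n with k' | k'
          · exact (col _ _ _ _ (φ3 _ _ _ (by omega)) (φ2 _ _ _ k') (h2 s) (h5 s)).2
          · exact (col _ _ _ _ (φ3 _ _ _ k') (φ2 _ _ _ (by omega)) (h2 s) (h5 s)).1
    · rw [mlt] at hba
      rcases hba with l | ⟨rfl, l | ⟨rfl, l⟩⟩
      · refine ⟨⟨mk s false ⟨s, (ne s).some⟩ 0, Or.inl ⟨s, _, 0, rfl, rfl⟩⟩, le' _ ?_,
          (mlt _ _ _ _ _ _ _ _).2 (Or.inr ⟨rfl, Or.inl (by decide)⟩),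
          (col _ _ _ _ (φ1 _ _ _) (φ2 _ _ _ rfl) (h3 s) (h4 s)).2⟩
        rw [mlt]
        simp [l.not_gt, l.ne']
      · obtain rfl : x = false := by
          cases x
          · rfl
          · simp at l
        refine ⟨⟨mk t false u (2 * m), Or.inl ⟨t, u, _, e2 rfl, rfl⟩⟩, le' _ ?_,
          (mlt _ _ _ _ _ _ _ _).2 (Or.inr ⟨rfl, Or.inl l⟩),
          (col _ _ _ _ (φ1 _ _ _) (φ2 _ _ _ (by omega)) (h3 t) (h4 t)).2⟩
        rw [mlt]
        simp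
        omega
      · obtain ⟨rfl, rfl⟩ := e3 rfl
        simp at l

theorem result : ∃ κ : Cardinal.{0}, ℵ₀ ≤ κ ∧ InP κ := by
  let J := (Order.succ (ℵ₁ : Cardinal.{0})).ord.ToType
  have hJ : #J = Order.succ ℵ₁ := by simp only [J, mk_toType, card_ord]
  have hI : ∀ k : J, #(Iio k) ≤ ℵ₁ := fun k =>
    Order.lt_succ_iff.1 ((mk_Iio_lt k (by rw [hJ]; simp only [J, Ordinal.type_toType])).trans_eq hJ)
  have hb : ∀ s : Set J, #s ≤ ℵ₁ → ∃ a, ∀ b ∈ s, b < a := fun s hs =>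
    bdd aleph0_lt_aleph_one.le (hJ ▸ Order.lt_succ _) hI hs
  let l : J → Cardinal.{0} := WellFounded.fix (wellFounded_lt (α := J))
    (fun ξ ih => Order.succ (2 ^ (ℵ₀ + #J + sum fun η : Iio ξ => ih η.1 η.2)))
  have hl : ∀ ξ, l ξ = Order.succ (2 ^ (ℵ₀ + #J + sum fun η : Iio ξ => l η)) := fun ξ =>
    WellFounded.fix_eq _ _ _
  obtain ⟨a, -⟩ := hb ∅ (by simp)
  refine ⟨sum l, le_trans ?_ (le_sum l a), main hb l hl⟩
  rw [hl]
  exact (le_self_add.trans le_self_add).trans ((cantor _).le.trans (Order.le_succ _))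

end Pool.Agent.Results.MP_ebc4cb_lc.Nonempty
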